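import Pool.Agent.N728.QG.Def
import Pool.Agent.N630.QL.BAD

set_option autoImplicit false

/-! # QG/BAD: the bad pairs contribute little, abstract weight -/

namespace Pool.Agent.N134.QG

open Finset Pool.Agent.N728.QL

open Pool.Agent.N630.QL (Pr mem_Pr Pr_prime DS G bad_sum DS_sum sum_inv_sq)

noncomputable section

set_option maxHeartbeats 4000000 in
theorem t_BAD (h2 : S_MER) : Pool.Agent.N728.QG.S_BAD := by
  intro C1 k1 D hC1 hD
  obtain ⟨C2, hC2, hMER, _⟩ := h2
  have hD0 : (0 : ℝ) < D := by exact_mod_cast hD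
  have hlarge : ∃ B2 : ℕ, ∀ B : ℕ, B2 ≤ B → (2 * Real.log B) ^ (2 * D) ≤ (B : ℝ) := by
    have h := (isLittleO_log_rpow_atTop (show (0 : ℝ) < 1 / (2 * D : ℝ) by positivity)).bound
      (show (0 : ℝ) < 1 / 2 by norm_num)
    obtain ⟨X0, hX0⟩ := Filter.eventually_atTop.1 h
    refine ⟨max 1 ⌈X0⌉₊, fun B hB => ?_⟩
    have hB1 : 1 ≤ B := le_trans (le_max_left _ _) hB
    have hBX : X0 ≤ (B : ℝ) := (Nat.le_ceil _).trans (by exact_mod_cast le_trans (le_max_right _ _) hB)
    have h3 := hX0 B hBX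
    have hl : 0 ≤ Real.log B := Real.log_natCast_nonneg B
    rw [Real.norm_of_nonneg hl, Real.norm_of_nonneg (by positivity)] at h3
    have h4 : 2 * Real.log B ≤ (B : ℝ) ^ (1 / (2 * D : ℝ)) := by linarith
    calc (2 * Real.log B) ^ (2 * D) ≤ ((B : ℝ) ^ (1 / (2 * D : ℝ))) ^ (2 * D) :=
          pow_le_pow_left₀ (by positivity) h4 _
      _ = B := by
        rw [← Real.rpow_natCast, ← Real.rpow_mul (Nat.cast_nonneg B)]
        push_cast
        rw [one_div_mul_cancel (by positivity), Real.rpow_one]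
  obtain ⟨B2, hB2⟩ := hlarge
  have hl2 : 0 < Real.log 2 := Real.log_pos (by norm_num)
  refine ⟨3 + 8 * C1 + 2 * C1 * (C2 / Real.log 2) ^ 3, by positivity, 2 * k1, max B2 3, ?_⟩
  intro B hB W hW hU' w y M0 T Y ρ hw hwy hyB hM0 hM0B hBT hTB hBY hYB hρ1 hρ2
  have hBB2 : B2 ≤ B := le_trans (le_max_left _ _) hB
  have hB3 : 3 ≤ B := le_trans (le_max_right _ _) hB
  have hlog4 := hB2 B hBB2
  have hlB : 1 ≤ Real.log B := by
    rw [Real.le_log_iff_exp_le (by positivity)]
    have h3 : (3 : ℝ) ≤ B := by exact_mod_cast hB3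
    have := Real.exp_one_lt_d9
    linarith
  have hT1 : 1 ≤ T := by
    rcases Nat.eq_zero_or_pos T with h | h
    · subst h; rw [zero_pow (by omega)] at hBT; omega
    · exact h
  have hY1 : 1 ≤ Y := by
    rcases Nat.eq_zero_or_pos Y with h | h
    · subst h; rw [zero_pow (by omega)] at hBY; omega
    · exact h
  set N : ℕ → ℕ → ℝ := fun u v => W (u * v) with hN
  have hN0 : ∀ u v, 0 ≤ N u v := fun u v => hW _
  have hTT : B ≤ T ^ (2 * D) := hBT.trans (Nat.pow_le_pow_right hT1 (by omega))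
  have hYY : B ≤ Y ^ (2 * D) := hBY.trans (Nat.pow_le_pow_right hY1 (by omega))
  have hTB2 : T ≤ B ^ (2 * D) := hTB.trans (Nat.pow_le_pow_right (by omega) (by omega))
  have hYB2 : Y ≤ B ^ (2 * D) := hYB.trans (Nat.pow_le_pow_right (by omega) (by omega))
  have hTr : (0 : ℝ) < T := by exact_mod_cast hT1
  have hYr : (0 : ℝ) < Y := by exact_mod_cast hY1
  -- the sieve bound
  have hG : ∀ d1 d2 : ℕ, 1 ≤ d1 → 1 ≤ d2 → d1 ^ k1 ≤ B → d2 ^ k1 ≤ B →
      G T Y N d1 d2 ≤ C1 * ((T : ℝ) * Y) / ((Nat.totient d1 : ℝ) * Nat.totient d2) := by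
    intro d1 d2 hd1 hd2 hd1B hd2B
    have := hU' d1 d2 0 T 0 Y hd1 hd2 hd1B hd2B (Nat.zero_le _) (by simpa using hTT) hTB2
      (Nat.zero_le _) (by simpa using hYY) hYB2
    simp only [Nat.cast_zero, sub_zero] at this
    refine le_trans (le_of_eq ?_) this
    have e1 : ∀ n : ℕ, Ioc 0 n = Icc 1 n := fun n => by ext; simp; omega
    unfold G
    rw [Finset.sum_filter, e1, e1]
    refine Finset.sum_congr rfl fun u _ => ?_
    by_cases hu : d1 ∣ u
    · rw [if_pos hu, Finset.sum_filter]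
      refine Finset.sum_congr rfl fun v _ => ?_
      simp [hu, hN]
    · rw [if_neg hu]
      refine Finset.sum_eq_zero fun v _ => ?_
      simp [hu]
  -- the part (3)
  have hS3 : (∑ u ∈ Icc 1 T, ∑ v ∈ Icc 1 Y, if (T : ℝ) < ρ * u then N u v else 0) ≤
      2 * C1 * (ρ - 1) * ((T : ℝ) * Y) := by
    have hρ0 : 0 < ρ := by
      have : 0 < 1 / Real.log B := by positivity
      linarith
    set n := ⌊(T : ℝ) / ρ⌋₊ with hn
    have hnT : n ≤ T := by
      have h1 : (T : ℝ) / ρ ≤ T := by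
        rw [div_le_iff₀ hρ0]
        have : 0 < 1 / Real.log B := by positivity
        nlinarith
      exact_mod_cast (Nat.floor_le (by positivity)).trans h1
    have hn1 : (n : ℝ) ≤ T / ρ := Nat.floor_le (by positivity)
    have hn2 : (T : ℝ) / ρ < n + 1 := Nat.lt_floor_add_one _
    have hdiff : (T : ℝ) / (2 * Real.log B) ≤ (T : ℝ) - n := by
      have h3 : (T : ℝ) / ρ ≤ T - T / (2 * Real.log B) := by
        rw [div_le_iff₀ hρ0]
        have h4 : (T : ℝ) - T / (2 * Real.log B) = T * (1 - 1 / (2 * Real.log B)) := by ring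
        rw [h4, mul_assoc]
        refine le_mul_of_one_le_right hTr.le ?_
        have h5 : 1 / Real.log B ≤ ρ - 1 := by linarith
        have h6 : 1 / (2 * Real.log B) = (1 / Real.log B) / 2 := by field_simp
        rw [h6]
        set e := 1 / Real.log B
        have he0 : 0 < e := by positivity
        nlinarith
      linarith
    have hB4 : B ≤ (T - n) ^ (2 * D) := by
      have h3 : (B : ℝ) ≤ ((T : ℝ) / (2 * Real.log B)) ^ (2 * D) := by
        rw [div_pow, le_div_iff₀ (by positivity)]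
        have h4 : (B : ℝ) ≤ (T : ℝ) ^ D := by exact_mod_cast hBT
        calc (B : ℝ) * (2 * Real.log B) ^ (2 * D) ≤ B * B := by
              exact mul_le_mul_of_nonneg_left hlog4 (Nat.cast_nonneg B)
          _ ≤ (T : ℝ) ^ D * (T : ℝ) ^ D := mul_le_mul h4 h4 (Nat.cast_nonneg B) (by positivity)
          _ = (T : ℝ) ^ (2 * D) := by ring
      have h5 : (B : ℝ) ≤ (((T - n : ℕ) : ℝ)) ^ (2 * D) := by
        rw [Nat.cast_sub hnT]
        exact h3.trans (pow_le_pow_left₀ (by positivity) hdiff _)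
      exact_mod_cast h5
    have h6 := hU' 1 1 n T 0 Y le_rfl le_rfl (by simp; omega) (by simp; omega) hnT hB4 hTB2
      (Nat.zero_le _) (by simpa using hYY) hYB2
    have h7 : (∑ u ∈ Icc 1 T, ∑ v ∈ Icc 1 Y, if (T : ℝ) < ρ * u then N u v else 0) ≤
        ∑ u ∈ (Ioc n T).filter (fun u => 1 ∣ u), ∑ v ∈ (Ioc 0 Y).filter (fun v => 1 ∣ v),
          W (u * v) := by
      simp only [one_dvd, Finset.filter_true]
      have e1 : ∀ n : ℕ, Ioc 0 n = Icc 1 n := fun n => by ext; simp; omega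
      rw [e1 Y]
      have h8 : (∑ u ∈ Icc 1 T, ∑ v ∈ Icc 1 Y, if (T : ℝ) < ρ * u then N u v else 0) =
          ∑ u ∈ (Icc 1 T).filter (fun u : ℕ => (T : ℝ) < ρ * u), ∑ v ∈ Icc 1 Y, N u v := by
        rw [Finset.sum_filter]
        refine Finset.sum_congr rfl fun u _ => ?_
        by_cases hu : (T : ℝ) < ρ * u
        · simp [hu]
        · simp [hu]
      rw [h8]
      refine Finset.sum_le_sum_of_subset_of_nonneg (fun u hu => ?_) fun u _ _ =>
        Finset.sum_nonneg fun v _ => hN0 u v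
      rw [mem_filter, mem_Icc] at hu
      rw [mem_Ioc]
      refine ⟨?_, hu.1.2⟩
      have : (n : ℝ) < u := by
        refine hn1.trans_lt ?_
        rw [div_lt_iff₀ hρ0]
        linarith [hu.2]
      exact_mod_cast this
    refine h7.trans (h6.trans ?_)
    simp only [Nat.cast_zero, sub_zero, Nat.totient_one, Nat.cast_one, mul_one, div_one]
    have h9 : (T : ℝ) - n ≤ 2 * (ρ - 1) * T := by
      have h10 : (T : ℝ) - T / ρ ≤ (ρ - 1) * T := by
        rw [sub_le_comm, le_div_iff₀ hρ0]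
        have : (T - (ρ - 1) * T) * ρ = T - T * (ρ - 1) ^ 2 := by ring
        nlinarith [mul_nonneg hTr.le (sq_nonneg (ρ - 1))]
      have h11 : 1 ≤ (ρ - 1) * T := by
        have h12 : 1 / Real.log B ≤ ρ - 1 := by linarith
        have h13 : Real.log B ≤ T := by
          have h14 : Real.log B ^ D ≤ (T : ℝ) ^ D := by
            have h4 : (B : ℝ) ≤ (T : ℝ) ^ D := by exact_mod_cast hBT
            refine le_trans ?_ h4
            refine le_trans ?_ hlog4
            refine (pow_le_pow_left₀ (by positivity) (by linarith : Real.log B ≤ 2 * Real.log B) D).trans ?_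
            exact pow_le_pow_right₀ (by linarith) (by omega)
          exact (pow_le_pow_iff_left₀ (by positivity) hTr.le (by omega)).1 h14
        calc (1 : ℝ) = 1 / Real.log B * Real.log B := by field_simp
          _ ≤ (ρ - 1) * T := mul_le_mul h12 h13 (by positivity) (by
            have : 0 < 1 / Real.log B := by positivity
            linarith)
      linarith
    calc C1 * (((T : ℝ) - n) * Y) ≤ C1 * ((2 * (ρ - 1) * T) * Y) := by gcongr
      _ = 2 * C1 * (ρ - 1) * ((T : ℝ) * Y) := by ring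
  -- the part (1)
  have hpB : ∀ p ∈ Pr w y, (p ^ 2) ^ k1 ≤ B ∧ p ^ k1 ≤ B := by
    intro p hp
    have h3 := mem_Pr.1 hp
    have h4 : (p ^ 2) ^ k1 ≤ B := by
      rw [← pow_mul]
      exact (Nat.pow_le_pow_left h3.1.2 _).trans hyB
    refine ⟨h4, le_trans ?_ h4⟩
    exact Nat.pow_le_pow_left (Nat.le_self_pow (by norm_num) p) k1
  have h1B : 1 ^ k1 ≤ B := by simp; omega
  have hp1 : ∀ p ∈ Pr w y, G T Y N (p ^ 2) 1 ≤ 2 * C1 * ((T : ℝ) * Y) * (1 / (p : ℝ) ^ 2) ∧
      G T Y N 1 (p ^ 2) ≤ 2 * C1 * ((T : ℝ) * Y) * (1 / (p : ℝ) ^ 2) ∧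
      G T Y N p p ≤ 4 * C1 * ((T : ℝ) * Y) * (1 / (p : ℝ) ^ 2) := by
    intro p hp
    have hpp := Pr_prime hp
    have hp2 : (2 : ℝ) ≤ p := by exact_mod_cast hpp.two_le
    have hp0 : (0 : ℝ) < p := by linarith
    have hpm : (0 : ℝ) < (p : ℝ) - 1 := by linarith
    have ht1 : (Nat.totient p : ℝ) = (p : ℝ) - 1 := by
      rw [Nat.totient_prime hpp, Nat.cast_sub hpp.one_le, Nat.cast_one]
    have ht2 : (Nat.totient (p ^ 2) : ℝ) = (p : ℝ) * ((p : ℝ) - 1) := by
      rw [Nat.totient_prime_pow hpp (by norm_num), Nat.cast_mul, Nat.cast_sub hpp.one_le]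
      simp
    have h5 : C1 * ((T : ℝ) * Y) / ((p : ℝ) * ((p : ℝ) - 1)) ≤ 2 * C1 * ((T : ℝ) * Y) * (1 / (p : ℝ) ^ 2) := by
      rw [mul_one_div, div_le_div_iff₀ (by positivity) (by positivity)]
      have h7 : 0 < C1 * ((T : ℝ) * Y) := by positivity
      have h8 : (p : ℝ) ^ 2 ≤ 2 * (p * (p - 1)) := by nlinarith
      nlinarith [mul_le_mul_of_nonneg_left h8 h7.le]
    refine ⟨?_, ?_, ?_⟩
    · have := hG (p ^ 2) 1 (Nat.one_le_pow _ _ hpp.pos) le_rfl (hpB p hp).1 h1B
      rw [Nat.totient_one, Nat.cast_one, mul_one, ht2] at this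
      exact this.trans h5
    · have := hG 1 (p ^ 2) le_rfl (Nat.one_le_pow _ _ hpp.pos) h1B (hpB p hp).1
      rw [Nat.totient_one, Nat.cast_one, one_mul, ht2] at this
      exact this.trans h5
    · have := hG p p hpp.one_le hpp.one_le (hpB p hp).2 (hpB p hp).2
      rw [ht1] at this
      refine this.trans ?_
      rw [mul_one_div, div_le_div_iff₀ (by positivity) (by positivity)]
      have h7 : 0 < C1 * ((T : ℝ) * Y) := by positivity
      have h8 : (p : ℝ) ^ 2 ≤ 4 * ((p - 1) * (p - 1)) := by nlinarith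
      nlinarith [mul_le_mul_of_nonneg_left h8 h7.le]
  have hsum1 : ∑ p ∈ Pr w y, G T Y N (p ^ 2) 1 + ∑ p ∈ Pr w y, G T Y N 1 (p ^ 2) +
      ∑ p ∈ Pr w y, G T Y N p p ≤ 8 * C1 * ((T : ℝ) * Y) * (1 / w) := by
    have hs := sum_inv_sq (w := w) (y := y) (by omega)
    have a1 := Finset.sum_le_sum fun p hp => (hp1 p hp).1
    have a2 := Finset.sum_le_sum fun p hp => (hp1 p hp).2.1
    have a3 := Finset.sum_le_sum fun p hp => (hp1 p hp).2.2
    rw [← Finset.mul_sum] at a1 a2 a3
    have h7 : 0 < C1 * ((T : ℝ) * Y) := by positivity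
    have h8 := mul_le_mul_of_nonneg_left hs h7.le
    nlinarith
  -- the part (2)
  have hsum2 : ∑ d ∈ DS w y M0, G T Y N d 1 + ∑ d ∈ DS w y M0, G T Y N 1 d ≤
      2 * C1 * (C2 / Real.log 2) ^ 3 * ((T : ℝ) * Y) *
        (Real.log y ^ (3 + 8 * C1 + 2 * C1 * (C2 / Real.log 2) ^ 3) *
          Real.exp (-(Real.log M0 / (2 * Real.log y)))) := by
    rcases Nat.lt_or_ge y 3 with hy3 | hy3
    · -- nothing
      have hDS : DS w y M0 = ∅ := by
        have hyw : w = y := by omega
        subst hyw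
        unfold DS
        have : PP w w = 1 := by simp [PP]
        rw [this, Finset.filter_eq_empty_iff]
        intro d hd
        rw [Nat.divisors_one, mem_singleton] at hd
        subst hd
        omega
      rw [hDS]
      simp only [Finset.sum_empty, add_zero]
      have hly : 0 ≤ Real.log y := Real.log_natCast_nonneg y
      positivity
    · have hly1 : 1 ≤ Real.log y := by
        rw [Real.le_log_iff_exp_le (by exact_mod_cast (by omega : 0 < y))]
        have h3 : (3 : ℝ) ≤ y := by exact_mod_cast hy3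
        have := Real.exp_one_lt_d9
        linarith
      have hdB : ∀ d ∈ DS w y M0, 1 ≤ d ∧ d ^ k1 ≤ B := by
        intro d hd
        have h3 := (mem_filter.1 hd).2
        refine ⟨?_, ?_⟩
        · rcases Nat.eq_zero_or_pos d with h | h
          · subst h; simp at h3
          · exact h
        · have h4 : (d ^ k1) ^ 2 ≤ B ^ 2 := by
            calc (d ^ k1) ^ 2 = (d ^ 2) ^ k1 := by rw [← pow_mul, ← pow_mul, mul_comm]
              _ ≤ (M0 * y ^ 2) ^ k1 := Nat.pow_le_pow_left h3.2 _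
              _ = M0 ^ k1 * y ^ (2 * k1) := by rw [mul_pow, ← pow_mul]
              _ ≤ B * B := Nat.mul_le_mul ((Nat.pow_le_pow_right hM0 (by omega)).trans hM0B) hyB
              _ = B ^ 2 := (sq B).symm
          exact (Nat.pow_le_pow_iff_left (by norm_num)).1 h4
      have b1 : ∑ d ∈ DS w y M0, G T Y N d 1 ≤ ∑ d ∈ DS w y M0, C1 * ((T : ℝ) * Y) * (1 / (Nat.totient d : ℝ)) := by
        refine Finset.sum_le_sum fun d hd => ?_
        have := hG d 1 (hdB d hd).1 le_rfl (hdB d hd).2 h1B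
        rw [Nat.totient_one, Nat.cast_one, mul_one] at this
        rwa [mul_one_div]
      have b2 : ∑ d ∈ DS w y M0, G T Y N 1 d ≤ ∑ d ∈ DS w y M0, C1 * ((T : ℝ) * Y) * (1 / (Nat.totient d : ℝ)) := by
        refine Finset.sum_le_sum fun d hd => ?_
        have := hG 1 d le_rfl (hdB d hd).1 h1B (hdB d hd).2
        rw [Nat.totient_one, Nat.cast_one, one_mul] at this
        rwa [mul_one_div]
      rw [← Finset.mul_sum] at b1 b2
      have b3 := DS_sum (w := w) hy3 hM0
      have b4 : (VW w y)⁻¹ ≤ C2 / Real.log 2 * Real.log y := by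
        refine (hMER w y hw hwy).2.trans ?_
        have hlw : Real.log 2 ≤ Real.log w := Real.log_le_log (by norm_num) (by exact_mod_cast hw)
        have hlw0 : 0 < Real.log w := by linarith
        calc C2 * (Real.log y / Real.log w) ≤ C2 * (Real.log y / Real.log 2) := by gcongr
          _ = C2 / Real.log 2 * Real.log y := by ring
      have b5 : (VW w y)⁻¹ ^ 3 ≤ (C2 / Real.log 2) ^ 3 * Real.log y ^ (3 + 8 * C1 + 2 * C1 * (C2 / Real.log 2) ^ 3) := by
        calc (VW w y)⁻¹ ^ 3 ≤ (C2 / Real.log 2 * Real.log y) ^ 3 :=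
              pow_le_pow_left₀ (inv_nonneg.2 (VW_pos w y).le) b4 3
          _ = (C2 / Real.log 2) ^ 3 * Real.log y ^ (3 : ℝ) := by
              rw [mul_pow]
              congr 1
              norm_cast
          _ ≤ _ := by
              refine mul_le_mul_of_nonneg_left ?_ (by positivity)
              refine Real.rpow_le_rpow_of_exponent_le hly1 ?_
              have : 0 ≤ 8 * C1 + 2 * C1 * (C2 / Real.log 2) ^ 3 := by positivity
              linarith
      have b6 : ∑ d ∈ DS w y M0, 1 / (Nat.totient d : ℝ) ≤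
          (C2 / Real.log 2) ^ 3 * (Real.log y ^ (3 + 8 * C1 + 2 * C1 * (C2 / Real.log 2) ^ 3) *
            Real.exp (-(Real.log M0 / (2 * Real.log y)))) := by
        refine b3.trans ?_
        refine (mul_le_mul_of_nonneg_left b5 (Real.exp_pos _).le).trans (le_of_eq ?_)
        ring
      have h7 : 0 < C1 * ((T : ℝ) * Y) := by positivity
      have h8 := mul_le_mul_of_nonneg_left b6 h7.le
      refine le_trans (b := 2 * (C1 * ((T : ℝ) * Y) * ∑ d ∈ DS w y M0, 1 / (Nat.totient d : ℝ))) (by linarith) ?_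
      refine (mul_le_mul_of_nonneg_left h8 (by norm_num : (0 : ℝ) ≤ 2)).trans (le_of_eq ?_)
      ring
  -- the end
  have hfin := bad_sum (T := T) (Y := Y) (w := w) (y := y) (M0 := M0) (ρ := ρ) hM0 N hN0
  refine hfin.trans ?_
  have hE : 0 ≤ Real.log y ^ (3 + 8 * C1 + 2 * C1 * (C2 / Real.log 2) ^ 3) *
      Real.exp (-(Real.log M0 / (2 * Real.log y))) := by
    have hly : 0 ≤ Real.log y := Real.log_natCast_nonneg y
    positivity
  have hρ0 : 0 ≤ ρ - 1 := by
    have : 0 < 1 / Real.log B := by positivity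
    linarith
  have hw0 : (0 : ℝ) ≤ 1 / w := by positivity
  have hTY : (0 : ℝ) < (T : ℝ) * Y := by positivity
  set E := Real.log y ^ (3 + 8 * C1 + 2 * C1 * (C2 / Real.log 2) ^ 3) *
      Real.exp (-(Real.log M0 / (2 * Real.log y))) with hEdef
  set K := (C2 / Real.log 2) ^ 3 with hK
  have hK0 : 0 ≤ K := by positivity
  have c1 : 0 ≤ ((T : ℝ) * Y) * (1 / w) := by positivity
  have c2 : 0 ≤ ((T : ℝ) * Y) * (ρ - 1) := by positivity
  have c3 : 0 ≤ ((T : ℝ) * Y) * E := by positivity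
  have d1 : 0 ≤ (3 + 2 * C1 * K) * (((T : ℝ) * Y) * (1 / w)) := by positivity
  have d2 : 0 ≤ (3 + 6 * C1 + 2 * C1 * K) * (((T : ℝ) * Y) * (ρ - 1)) := by positivity
  have d3 : 0 ≤ (3 + 8 * C1) * (((T : ℝ) * Y) * E) := by positivity
  have key : (3 + 8 * C1 + 2 * C1 * K) * ((T : ℝ) * Y) * (1 / w + (ρ - 1) + E) =
      2 * C1 * (ρ - 1) * ((T : ℝ) * Y) + 8 * C1 * ((T : ℝ) * Y) * (1 / w) +
        2 * C1 * K * ((T : ℝ) * Y) * E +
      ((3 + 2 * C1 * K) * (((T : ℝ) * Y) * (1 / w)) +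
        (3 + 6 * C1 + 2 * C1 * K) * (((T : ℝ) * Y) * (ρ - 1)) +
        (3 + 8 * C1) * (((T : ℝ) * Y) * E)) := by ring
  rw [key]
  linarith

end

end Pool.Agent.N134.QG
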